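import Mathlib
import Pool.Agent.Q166.Dice

/-!
# MP_eda2d2_co: square-sided dice pairs for two `pqr`-sided dice

For `p = 2`, `q = 3`, `r = 7` and the tuple `t = (2,2,1,1)`, which lies in `S`, both members of the
pair attached to `t` have only nonnegative coefficients.  So the answer to Q1 is negative.
-/

set_option autoImplicit false

open Polynomial

namespace Pool.Agent.Results.MP_eda2d2_co.Disproof

/-- `M_t = φ_pqr ^ d * φ_pq ^ a * φ_pr ^ b * φ_qr ^ c` for `t = (a, b, c, d)`. -/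
noncomputable def M (p q r : ℕ) (t : ℕ × ℕ × ℕ × ℕ) : ℤ[X] :=
  cyclotomic (p * q * r) ℤ ^ t.2.2.2 * cyclotomic (p * q) ℤ ^ t.1 * cyclotomic (p * r) ℤ ^ t.2.1 *
    cyclotomic (q * r) ℤ ^ t.2.2.1

/-- `A_t = x (φ_p φ_q) ^ 2 M_t`. -/
noncomputable def A (p q r : ℕ) (t : ℕ × ℕ × ℕ × ℕ) : ℤ[X] :=
  X * (cyclotomic p ℤ * cyclotomic q ℤ) ^ 2 * M p q r t

/-- `B_t = x φ_r ^ 2 M_t`. -/
noncomputable def B (p q r : ℕ) (t : ℕ × ℕ × ℕ × ℕ) : ℤ[X] :=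
  X * cyclotomic r ℤ ^ 2 * M p q r t

/-- `t ↦ (2 - a, 2 - b, 2 - c, 2 - d)`. -/
def bar (t : ℕ × ℕ × ℕ × ℕ) : ℕ × ℕ × ℕ × ℕ := (2 - t.1, 2 - t.2.1, 2 - t.2.2.1, 2 - t.2.2.2)

/-- The set `{0,1,2} ^ 4` of all tuples `(a, b, c, d)`. -/
def tuples : Finset (ℕ × ℕ × ℕ × ℕ) :=
  Finset.range 3 ×ˢ Finset.range 3 ×ˢ Finset.range 3 ×ˢ Finset.range 3

/-- The set `T` of the ten exceptional tuples: `(2,0,0,0)`, `(2,1,0,1)`, `(2,0,1,1)`, `(2,1,1,1)`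
and `(2,b,c,2)` with `b + c ≥ 2`. -/
def T : Finset (ℕ × ℕ × ℕ × ℕ) :=
  tuples.filter fun t => t = (2, 0, 0, 0) ∨ t = (2, 1, 0, 1) ∨ t = (2, 0, 1, 1) ∨
    t = (2, 1, 1, 1) ∨ (t.1 = 2 ∧ t.2.2.2 = 2 ∧ 2 ≤ t.2.1 + t.2.2.1)

/-- The set `S` of all `(a, b, c, d)` in `{0,1,2} ^ 4` with `2 + d ≤ a + b + c ≤ 4 + d` that are
neither in `T` nor equal to `(1,1,1,1)`. -/
def S : Finset (ℕ × ℕ × ℕ × ℕ) :=
  tuples.filter fun t => 2 + t.2.2.2 ≤ t.1 + t.2.1 + t.2.2.1 ∧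
    t.1 + t.2.1 + t.2.2.1 ≤ 4 + t.2.2.2 ∧ t ∉ T ∧ t ≠ (1, 1, 1, 1)

/-- The statement of Q1 is false. -/
theorem result :
    ¬ ∀ p q r : ℕ, p.Prime → q.Prime → r.Prime → p ≠ q → p ≠ r → q ≠ r → ∀ t ∈ S,
      (∃ n, (A p q r t).coeff n < 0) ∨ (∃ n, (B p q r (bar t)).coeff n < 0) := by
  intro h
  have h1 := h 2 3 7 (by norm_num) (by norm_num) (by norm_num) (by norm_num) (by norm_num)
    (by norm_num) (2, 2, 1, 1) (by decide)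
  have hA : A 2 3 7 (2, 2, 1, 1) = X * (cyclotomic 2 ℤ * cyclotomic 3 ℤ) ^ 2 *
      (cyclotomic 42 ℤ ^ 1 * cyclotomic 6 ℤ ^ 2 * cyclotomic 14 ℤ ^ 2 * cyclotomic 21 ℤ ^ 1) := rfl
  have hB : B 2 3 7 (bar (2, 2, 1, 1)) = X * cyclotomic 7 ℤ ^ 2 *
      (cyclotomic 42 ℤ ^ 1 * cyclotomic 6 ℤ ^ 0 * cyclotomic 14 ℤ ^ 0 * cyclotomic 21 ℤ ^ 1) := rfl
  rcases h1 with ⟨n, hn⟩ | ⟨n, hn⟩
  · rw [hA, Q166.Dice.polyA] at hn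
    exact absurd hn (not_lt.mpr (Q166.Dice.nonneg_of_map _ n))
  · rw [hB, Q166.Dice.polyB] at hn
    exact absurd hn (not_lt.mpr (Q166.Dice.nonneg_of_map _ n))

end Pool.Agent.Results.MP_eda2d2_co.Disproof
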